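import Pool.Agent.K3h20.CR.Stm

set_option autoImplicit false

open Set Filter Topology MeasureTheory Metric

namespace Pool.Agent.K3h37.CR

/-- the covering inequality -/
theorem t_vit : Pool.Agent.K3h20.CR.St_vit := by
  intro μ X S ρ M hρ hS
  obtain ⟨u, huX, hdis, hcov⟩ := Vitali.exists_disjoint_subfamily_covering_enlargement_closedBall
    X (fun x => x) ρ M (fun x hx => (hρ x hx).2) 5 (by norm_num)
  have hcount : u.Countable := by
    apply hdis.countable_of_nonempty_interior
    intro x hx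
    refine ⟨x, ?_⟩
    rw [mem_interior]
    exact ⟨ball x (ρ x), ball_subset_closedBall, isOpen_ball, mem_ball_self (hρ x (huX hx)).1⟩
  have hsub : S ∩ X ⊆ ⋃ b ∈ u, S ∩ closedBall b (5 * ρ b) := by
    rintro x ⟨hxS, hxX⟩
    obtain ⟨b, hb, hbx⟩ := hcov x hxX
    simp only [mem_iUnion]
    exact ⟨b, hb, hxS, hbx (mem_closedBall_self (hρ x hxX).1.le)⟩
  calc volume (S ∩ X) ≤ volume (⋃ b ∈ u, S ∩ closedBall b (5 * ρ b)) := measure_mono hsub
    _ ≤ ∑' b : u, volume (S ∩ closedBall (b : ℂ) (5 * ρ b)) :=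
        measure_biUnion_le volume hcount _
    _ ≤ ∑' b : u, μ (closedBall (b : ℂ) (ρ b)) :=
        ENNReal.tsum_le_tsum fun b => hS b (huX b.2)
    _ = μ (⋃ b ∈ u, closedBall b (ρ b)) :=
        (measure_biUnion hcount hdis fun b _ => isClosed_closedBall.measurableSet).symm
    _ ≤ μ (⋃ x ∈ X, closedBall x (ρ x)) := measure_mono (biUnion_subset_biUnion_left huX)

end Pool.Agent.K3h37.CR
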